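import Pool.Agent.Helper36.AM.St

/-! COORDINATES OF A SYSTEM: the coordinates `σ 0, .., σ (m - 1)` of the point (permutations and projections). Windows,
labels of the windows, types and parameters are literally the same. -/

set_option autoImplicit false

namespace Pool.Agent.Helper18.PRM

open Finset Filter Topology Pool.Agent.Helper69.RK Pool.Agent.Helper31.EC Pool.Agent.Helper31.EC.Sp
open Pool.Agent.Helper40.EL Pool.Agent.Helper89.LX Pool.Agent.Helper3.LF Pool.Agent.Helper84.MT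
open Pool.Agent.Helper36.AM
open Pool.Agent.Helper49.MD (lft DiagCl)

noncomputable section

variable {S T : Sp} {M m m' : ℕ} {E : ℕ → ℕ} {ι : Type}

/-- the coordinates `σ` of a vector -/
def vcrd (σ : Fin m → Fin M) (Q : S.VV M) : S.VV m where
  v := fun k ω i => Q.v k ω (σ i)
  bd := by
    obtain ⟨K, hK, h⟩ := Q.bd
    exact ⟨K, hK, h.mono fun k a ω hω i => a ω hω (σ i)⟩

theorem vcrd_v (σ : Fin m → Fin M) (Q : S.VV M) (k : ℕ) (ω : (S.F k).Ω) (i : Fin m) :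
    (vcrd σ Q).v k ω i = Q.v k ω (σ i) := rfl

theorem vcrd_id (Q : S.VV M) : vcrd id Q = Q := rfl

theorem vcrd_comp (σ : Fin m → Fin M) (τ : Fin m' → Fin m) (Q : S.VV M) :
    vcrd τ (vcrd σ Q) = vcrd (σ ∘ τ) Q := rfl

theorem vcrd_cellv (σ : Fin m → Fin M) (Q : S.VV M) (r : ℝ) (k : ℕ) (ω : (S.F k).Ω) (i : Fin m) :
    (vcrd σ Q).cellv r k ω i = Q.cellv r k ω (σ i) := rfl

/-- the coordinates `σ` of a type of leaves -/
def lcrd (σ : Fin m → Fin M) {Q : S.VV M} (lf : Leaf S Q E) : Leaf S (vcrd σ Q) E where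
  e := lf.e
  he := lf.he
  La := lf.La
  Y := lf.Y
  F := fun k ω y j => lf.F k ω y (σ j)
  fn := by
    filter_upwards [lf.fn] with k hk ω ω' h1 h2 h3 h4
    rw [hk ω ω' h1 h2 h3 h4]
  bd := by
    obtain ⟨K, hK, h⟩ := lf.bd
    exact ⟨K, hK, h.mono fun k a ω hω y hy j => a ω hω y hy (σ j)⟩
  al := lf.al
  alg := lf.alg
  crF := lf.crF.mono fun k a ω hω j => a ω hω (σ j)
  seg := lf.seg
  pt := by
    obtain ⟨K, hK, h⟩ := lf.pt
    exact ⟨K, hK, h.mono fun k a ω hω i => a ω hω (σ i)⟩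
  full := lf.full

theorem lcrd_id {Q : S.VV M} (lf : Leaf S Q E) : lcrd id lf = lf := rfl

theorem lcrd_comp (σ : Fin m → Fin M) (τ : Fin m' → Fin m) {Q : S.VV M} (lf : Leaf S Q E) :
    lcrd τ (lcrd σ lf) = lcrd (σ ∘ τ) lf := rfl

theorem lcrd_win (σ : Fin m → Fin M) {Q : S.VV M} (lf : Leaf S Q E) (c : ℝ) : (lcrd σ lf).win c = lf.win c := rfl

/-- the coordinates `σ` of a system -/
def scrd (σ : Fin m → Fin M) (s : MSys S M E ι) : MSys S m E ι := ⟨vcrd σ s.Q, fun i => lcrd σ (s.lf i)⟩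

theorem scrd_id (s : MSys S M E ι) : scrd id s = s := rfl

theorem scrd_comp (σ : Fin m → Fin M) (τ : Fin m' → Fin m) (s : MSys S M E ι) :
    scrd τ (scrd σ s) = scrd (σ ∘ τ) s := rfl

theorem scrd_win (σ : Fin m → Fin M) (s : MSys S M E ι) (c : ℝ) (i : ι) :
    ((scrd σ s).lf i).win c = (s.lf i).win c := rfl

theorem scrd_pull (σ : Fin m → Fin M) (s : MSys S M E ι) (p : Pj T S) :
    (scrd σ s).pull p = scrd σ (s.pull p) := rfl

theorem scrd_im (σ : Fin m → Fin M) (s : MSys S M E ι) (p : Pj T S) (A : ∀ k, (T.F k).Ω → Prop)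
    (hA : 0 < ul (T.pr A)) : (scrd σ s).im p A hA = scrd σ (s.im p A hA) := rfl

theorem scrd_trn (σ : Fin m → Fin M) (s : MSys S M E ι) (e : ℝ) (he : 0 < e) (h1 : e ≤ 1) :
    (scrd σ s).trn e he h1 = scrd σ (s.trn e he h1) := rfl

end

end Pool.Agent.Helper18.PRM
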