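import Pool.Agent.Helper18.PRM.Prm
import Mathlib.Data.Fin.Tuple.Sort

/-! PERMUTED CLASSES and the SORTING PERMUTATION of the weights. -/

set_option autoImplicit false

namespace Pool.Agent.Helper18.PRM

open Finset Filter Topology Matrix Pool.Agent.Helper69.RK Pool.Agent.Helper31.EC Pool.Agent.Helper31.EC.Sp
open Pool.Agent.Helper40.EL Pool.Agent.Helper89.LX Pool.Agent.Helper3.LF Pool.Agent.Helper84.MT
open Pool.Agent.Helper36.AM
open Pool.Agent.Helper49.MD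

noncomputable section

variable {S T : Sp} {M m D : ℕ} {E : ℕ → ℕ} {ι κ : Type}

/-! ### diagonals -/

/-- the coordinates `σ` of the finite data of a leaf -/
def flc (σ : Fin m → Fin M) {Ω : Type} (x : FLf Ω M) : FLf Ω m := ⟨x.e, x.La, x.Y, fun ω y j => x.F ω y (σ j), x.al⟩

/-- the coordinates `σ` of the finite data of a system -/
def fmc (σ : Fin m → Fin M) {Ω : Type} (x : FMs Ω M ι) : FMs Ω m ι := ⟨fun ω j => x.Q ω (σ j), fun i => flc σ (x.lf i)⟩

/-- the coordinates `σ` of an object -/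
def obc (σ : Fin m → Fin M) (x : (KM M ι).Ob S) : (KM m ι).Ob S := fun k => fmc σ (x k : FMs (S.F k).Ω M ι)

theorem ob_crd (σ : Fin m → Fin M) (s : MSys S M E ι) : ob (scrd σ s) = obc σ (ob s) := rfl

theorem obc_comp {m' : ℕ} (σ : Fin m → Fin M) (τ : Fin m' → Fin m) (x : (KM M ι).Ob S) :
    obc τ (obc σ x) = obc (σ ∘ τ) x := rfl

theorem obc_id (x : (KM M ι).Ob S) : obc id x = x := rfl

/-- THE PERMUTED CLASS -/
def ccrd (σ : Equiv.Perm (Fin M)) (TT : ∀ S : Sp, MSys S M E ι → Prop) : ∀ S : Sp, MSys S M E ι → Prop :=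
  fun S t => TT S (scrd σ.symm t)

variable {TT : ∀ S : Sp, MSys S M E ι → Prop} (σ : Equiv.Perm (Fin M))

theorem ccrd_scrd {s : MSys S M E ι} : ccrd σ TT S (scrd σ s) ↔ TT S s := by
  unfold ccrd
  rw [scrd_symm]

theorem ccrd_ne (h : ∃ S s, TT S s) : ∃ S s, ccrd σ TT S s := by
  obtain ⟨S, s, hs⟩ := h
  exact ⟨S, scrd σ s, (ccrd_scrd σ).mpr hs⟩

theorem ccrd_im (h : ∀ S s, TT S s → ∀ (T : Sp) (p : Pj T S) (A : ∀ k, (T.F k).Ω → Prop) (hA : 0 < ul (T.pr A)),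
    TT (Sp.im p A) (s.im p A hA)) : ∀ S s, ccrd σ TT S s → ∀ (T : Sp) (p : Pj T S) (A : ∀ k, (T.F k).Ω → Prop)
    (hA : 0 < ul (T.pr A)), ccrd σ TT (Sp.im p A) (s.im p A hA) := fun S s hs T p A hA =>
  h S (scrd σ.symm s) hs T p A hA

theorem ccrd_trn (h : ∀ S s, TT S s → ∀ (e : ℝ) (he : 0 < e) (h1 : e ≤ 1), TT (S.chg S.tr e he) (s.trn e he h1)) :
    ∀ S s, ccrd σ TT S s → ∀ (e : ℝ) (he : 0 < e) (h1 : e ≤ 1), ccrd σ TT (S.chg S.tr e he) (s.trn e he h1) :=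
  fun S s hs e he h1 => h S (scrd σ.symm s) hs e he h1

theorem obc_symm (x : (KM M ι).Ob S) : obc σ (obc σ.symm x) = x := by
  rw [obc_comp]
  have h3 : (σ.symm ∘ σ : Fin M → Fin M) = id := funext fun i => σ.symm_apply_apply i
  rw [h3, obc_id]

theorem lft_ccrd (S : Sp) (x : (KM M ι).Ob S) : lft (ccrd σ TT) S x ↔ lft TT S (obc σ.symm x) := by
  constructor
  · rintro ⟨t, ht, hT⟩
    refine ⟨scrd σ.symm t, ?_, hT⟩
    filter_upwards [ht] with k hk
    show fmc σ.symm (ob t k : FMs (S.F k).Ω M ι) = fmc σ.symm (x k : FMs (S.F k).Ω M ι)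
    rw [hk]
  · rintro ⟨s, hs, hT⟩
    refine ⟨scrd σ s, ?_, (ccrd_scrd σ).mpr hT⟩
    filter_upwards [hs] with k hk
    have h1 : fmc σ (ob s k : FMs (S.F k).Ω M ι) = fmc σ (obc σ.symm x k : FMs (S.F k).Ω M ι) := by rw [hk]
    have h2 : obc σ (obc σ.symm x) k = x k := congrFun (obc_symm σ x) k
    exact h1.trans h2

theorem ccrd_dg (h : DiagCl (lft TT)) : DiagCl (lft (ccrd σ TT)) := by
  intro S x hx
  obtain ⟨C, hC, h1⟩ := h S (fun j => obc σ.symm (x j)) fun j => (lft_ccrd σ (S j) (x j)).mp (hx j)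
  refine ⟨C, hC, fun J hJ => ?_⟩
  exact (lft_ccrd σ _ _).mpr (h1 J hJ)

/-! ### sorting -/

theorem ord_mono {w : Fin M → ℝ} (h : Monotone fun j => w (σ j)) : Ord w σ := by
  intro j i hi
  refine ⟨σ.symm i, ?_, σ.apply_symm_apply i⟩
  by_contra hc
  have h1 : w (σ j) ≤ w (σ (σ.symm i)) := h (not_lt.mp hc)
  rw [Equiv.apply_symm_apply] at h1
  linarith

/-- the sorting permutation -/
def srt (w : Fin M → ℝ) : Equiv.Perm (Fin M) := Tuple.sort w

theorem srt_mono (w : Fin M → ℝ) : Monotone fun j => w (srt w j) := Tuple.monotone_sort w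

theorem srt_ties (w : Fin M → ℝ) {i j : Fin M} (hij : i < j) (h : w (srt w i) = w (srt w j)) : srt w i < srt w j :=
  ((Tuple.eq_sort_iff (f := w) (σ := srt w)).mp rfl).2 i j hij h

theorem srt_ord (w : Fin M → ℝ) : Ord w (srt w) := ord_mono (srt w) (srt_mono w)

theorem srt_ord_mul (w : Fin M → ℝ) {c : ℝ} (hc : 0 ≤ c) : Ord (fun j => w j * c) (srt w) :=
  ord_mono (srt w) fun _ _ h => mul_le_mul_of_nonneg_right (srt_mono w h) hc

/-- the first coordinate stays if its weight is minimal -/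
theorem srt_zero (w : Fin (M + 1) → ℝ) (h : ∀ i, w 0 ≤ w i) : srt w 0 = 0 := by
  obtain ⟨a, ha⟩ := (srt w).surjective 0
  rcases Fin.eq_zero_or_eq_succ a with h1 | ⟨b, h1⟩
  · rw [h1] at ha
    exact ha
  · exfalso
    have h2 : (0 : Fin (M + 1)) < a := by
      rw [h1]
      exact Fin.succ_pos b
    have h3 : w (srt w 0) = w (srt w a) := by
      refine le_antisymm (srt_mono w h2.le) ?_
      rw [ha]
      exact h _
    have h4 := srt_ties w h2 h3
    rw [ha] at h4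
    exact absurd h4 (Fin.not_lt_zero _)

theorem srt_one (w : Fin (M + 1) → ℝ) (h0 : ∀ i, 1 ≤ w i) (h1 : ∃ i, w i = 1) : w (srt w 0) = 1 := by
  obtain ⟨i, hi⟩ := h1
  refine le_antisymm ?_ (h0 _)
  obtain ⟨a, ha⟩ := (srt w).surjective i
  have h2 : w (srt w 0) ≤ w (srt w a) := srt_mono w (Fin.zero_le a)
  rwa [ha, hi] at h2

theorem srt_last (w : Fin (M + 1) → ℝ) (i : Fin (M + 1)) : w i ≤ w (srt w (Fin.last M)) := by
  obtain ⟨a, ha⟩ := (srt w).surjective i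
  have h2 : w (srt w a) ≤ w (srt w (Fin.last M)) := srt_mono w (Fin.le_last a)
  rwa [ha] at h2

end

end Pool.Agent.Helper18.PRM
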