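import Pool.Agent.Helper18.PRM.Crd

/-! FRAMES, ZOOMS AND COORDINATES: the polynomials of a reduced frame contain only coordinates with strictly smaller
exponents; hence the frame can be written in every order with nondecreasing exponents, and in the slow coordinates. -/

set_option autoImplicit false

namespace Pool.Agent.Helper18.PRM

open Finset Filter Topology Pool.Agent.Helper69.RK Pool.Agent.Helper31.EC Pool.Agent.Helper31.EC.Sp
open Pool.Agent.Helper40.EL Pool.Agent.Helper89.LX Pool.Agent.Helper3.LF Pool.Agent.Helper84.MT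
open Pool.Agent.Helper36.AM

noncomputable section

variable {S T : Sp} {M m : ℕ} {E : ℕ → ℕ} {ι : Type}

/-- a polynomial of weighted degree less than `w` contains only variables of weight less than `w` -/
theorem lt_of_mem_vars {La : Fin M → ℝ} (h0 : ∀ i, 0 ≤ La i) {p : MvPolynomial (Fin M) ℝ} {w : ℝ}
    (h : ∀ a ∈ p.support, a ≠ 0 → ∑ i, (a i : ℝ) * La i < w) {i : Fin M} (hi : i ∈ p.vars) : La i < w := by
  classical
  obtain ⟨a, ha, hia⟩ := (MvPolynomial.mem_vars_iff_mem_support i).mp hi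
  have h1 : a i ≠ 0 := Finsupp.mem_support_iff.mp hia
  have h2 := h a ha (by
    intro hc
    rw [hc] at h1
    exact h1 rfl)
  have h3 : (a i : ℝ) * La i ≤ ∑ i, (a i : ℝ) * La i :=
    Finset.single_le_sum (f := fun i => (a i : ℝ) * La i) (fun j _ => mul_nonneg (Nat.cast_nonneg _) (h0 j))
      (Finset.mem_univ i)
  have h4 : (1 : ℝ) ≤ a i := by
    exact_mod_cast Nat.one_le_iff_ne_zero.mpr h1
  have h5 : La i ≤ (a i : ℝ) * La i := by
    have := mul_le_mul_of_nonneg_right h4 (h0 i)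
    rwa [one_mul] at this
  linarith

/-- the ORDER `σ` is admissible for the exponents `La`: all coordinates with smaller exponents come before -/
def Ord (La : Fin M → ℝ) (σ : Fin m → Fin M) : Prop := ∀ j : Fin m, ∀ i : Fin M, La i < La (σ j) → ∃ a : Fin m, a < j ∧ σ a = i

/-- the polynomial in the new coordinates -/
def cpo (σ : Fin m → Fin M) (hσ : Function.Injective σ) (p : MvPolynomial (Fin M) ℝ) : MvPolynomial (Fin m) ℝ :=
  MvPolynomial.killCompl hσ p

theorem rename_cpo (σ : Fin m → Fin M) (hσ : Function.Injective σ) {p : MvPolynomial (Fin M) ℝ}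
    (h : ∀ i ∈ p.vars, ∃ a, σ a = i) : MvPolynomial.rename σ (cpo σ hσ p) = p := by
  obtain ⟨q, hq⟩ := MvPolynomial.exists_rename_eq_of_vars_subset_range p σ hσ (fun i hi => by
    obtain ⟨a, ha⟩ := h i hi
    exact ⟨a, ha⟩)
  unfold cpo
  rw [← hq, MvPolynomial.killCompl_rename_app]

theorem coeff_cpo (σ : Fin m → Fin M) (hσ : Function.Injective σ) {p : MvPolynomial (Fin M) ℝ}
    (h : ∀ i ∈ p.vars, ∃ a, σ a = i) (a : Fin m →₀ ℕ) :
    (cpo σ hσ p).coeff a = p.coeff (Finsupp.mapDomain σ a) := by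
  rw [← MvPolynomial.coeff_rename_mapDomain σ hσ, rename_cpo σ hσ h]

theorem vars_cpo (σ : Fin m → Fin M) (hσ : Function.Injective σ) {p : MvPolynomial (Fin M) ℝ}
    (h : ∀ i ∈ p.vars, ∃ a, σ a = i) {i : Fin m} (hi : i ∈ (cpo σ hσ p).vars) : σ i ∈ p.vars := by
  classical
  obtain ⟨a, ha, hia⟩ := (MvPolynomial.mem_vars_iff_mem_support i).mp hi
  rw [MvPolynomial.mem_vars_iff_mem_support]
  refine ⟨Finsupp.mapDomain σ a, ?_, ?_⟩
  · rw [MvPolynomial.mem_support_iff, ← coeff_cpo σ hσ h]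
    exact MvPolynomial.mem_support_iff.mp ha
  · rw [Finsupp.mem_support_iff, Finsupp.mapDomain_apply hσ]
    exact Finsupp.mem_support_iff.mp hia

theorem sum_mapDomain (σ : Fin m → Fin M) (hσ : Function.Injective σ) (La : Fin M → ℝ) (a : Fin m →₀ ℕ) :
    ∑ i, ((Finsupp.mapDomain σ a) i : ℝ) * La i = ∑ j, (a j : ℝ) * La (σ j) := by
  classical
  rw [← Finset.sum_subset (Finset.subset_univ (univ.image σ))]
  · rw [Finset.sum_image (fun x _ y _ h => hσ h)]
    exact Finset.sum_congr rfl fun j _ => by rw [Finsupp.mapDomain_apply hσ]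
  · intro i _ hi
    rw [Finsupp.mapDomain_of_notMem_range _ _ (fun hc => hi (by
      obtain ⟨j, hj⟩ := hc
      exact Finset.mem_image.mpr ⟨j, Finset.mem_univ _, hj⟩)), Nat.cast_zero, zero_mul]

theorem eval_cpo (σ : Fin m → Fin M) (hσ : Function.Injective σ) {p : MvPolynomial (Fin M) ℝ}
    (h : ∀ i ∈ p.vars, ∃ a, σ a = i) (x : Fin M → ℝ) :
    MvPolynomial.eval (fun j => x (σ j)) (cpo σ hσ p) = MvPolynomial.eval x p := by
  have h1 := MvPolynomial.eval_rename σ x (cpo σ hσ p)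
  rw [rename_cpo σ hσ h] at h1
  exact h1.symm

variable {Q : S.VV M} {l : Lab S} {La : Fin M → ℝ}

theorem frm_vars (f : Frm Q l La) (h0 : ∀ i, 0 ≤ La i) {σ : Fin m → Fin M} (ho : Ord La σ) (k : ℕ)
    (ω : (l.sp.F k).Ω) (j : Fin m) : ∀ i ∈ (f.P k ω (σ j)).vars, ∃ a, σ a = i := fun i hi => by
  obtain ⟨a, _, ha⟩ := ho j i (lt_of_mem_vars h0 (f.red k ω (σ j)) hi)
  exact ⟨a, ha⟩

/-- THE FRAME IN ANOTHER ORDER -/
def frr (σ : Fin m → Fin M) (hσ : Function.Injective σ) (h0 : ∀ i, 0 ≤ La i) (ho : Ord La σ) (f : Frm Q l La) :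
    Frm (vcrd σ Q) l (fun j => La (σ j)) where
  X := vcrd σ f.X
  P := fun k ω j => cpo σ hσ (f.P k ω (σ j))
  tri := by
    intro k ω j i hi
    have h1 := vars_cpo σ hσ (frm_vars f h0 ho k ω j) hi
    obtain ⟨a, ha, hb⟩ := ho j (σ i) (lt_of_mem_vars h0 (f.red k ω (σ j)) h1)
    rw [← hσ hb]
    exact ha
  red := by
    intro k ω j a ha hne
    rw [← sum_mapDomain σ hσ La a]
    apply f.red k ω (σ j)
    · rw [MvPolynomial.mem_support_iff, ← coeff_cpo σ hσ (frm_vars f h0 ho k ω j)]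
      exact MvPolynomial.mem_support_iff.mp ha
    · intro hc
      apply hne
      apply Finsupp.mapDomain_injective hσ
      rw [hc, Finsupp.mapDomain_zero]
  fn := by
    filter_upwards [f.fn] with k hk ω ω' a b c d
    funext j
    rw [hk ω ω' a b c d]
  bd := by
    obtain ⟨K, hK, hb⟩ := f.bd
    refine ⟨K, hK, ?_⟩
    filter_upwards [hb] with k hk ω hω j a
    rw [coeff_cpo σ hσ (frm_vars f h0 ho k ω j)]
    exact hk ω hω (σ j) _
  pt := by
    obtain ⟨K, hK, hb⟩ := f.pt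
    refine ⟨K, hK, ?_⟩
    filter_upwards [hb] with k hk ω hω j
    have h1 := eval_cpo σ hσ (frm_vars f h0 ho k ω j) (fun i => S.dl (La i) k * f.X.v k ω i)
    have h2 := hk ω hω (σ j)
    rw [← h1] at h2
    exact h2

variable {σ : Fin m → Fin M} {hσ : Function.Injective σ} {h0 : ∀ i, 0 ≤ La i} {ho : Ord La σ}

theorem frr_X (f : Frm Q l La) : (frr σ hσ h0 ho f).X = vcrd σ f.X := rfl

/-- THE ZOOM IN ANOTHER ORDER -/
theorem gz_crd {s : MSys S M E ι} {c e : ℝ} {he : 0 < e} {X : l.sp.VV M} {E' : ℕ → ℕ}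
    {t : MSys (l.ovr e he) M E' ι} (h : Gz s l c e he X t) (σ : Fin m → Fin M) :
    Gz (scrd σ s) l c e he (vcrd σ X) (scrd σ t) where
  pt := by
    obtain ⟨K, hK, hb⟩ := h.pt
    exact ⟨K, hK, hb.mono fun k hk ω hω j => hk ω hω (σ j)⟩
  win := h.win

/-- the leaf relation in another order -/
theorem lfr_crd {lf : Leaf S Q E} {f : Frm Q l La} {c e : ℝ} {he : 0 < e} {E' : ℕ → ℕ}
    {Q' : (l.ovr e he).VV M} {t : Leaf (l.ovr e he) Q' E'} (h : Lfr lf f c e he t) :
    Lfr (lcrd σ lf) (frr σ hσ h0 ho f) c e he (lcrd σ t) := by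
  obtain ⟨h1, o, h2, h3⟩ := h
  refine ⟨h1, o, h2, h3.mono (Eventually.of_forall fun k ω _ hω y j => ?_)⟩
  have h4 := hω y (σ j)
  have h5 := eval_cpo σ hσ (frm_vars f h0 ho k ω j)
    (fun a => S.dl (La a) k * t.F k ω (fun m => y (Fin.cast h1 m)) a)
  exact h4.trans (congrArg (fun z => z + S.dl (La (σ j)) k * t.F k ω (fun m => y (Fin.cast h1 m)) (σ j)) h5.symm)

/-- THE ZOOM IN THE COORDINATES OF A FRAME, IN ANOTHER ORDER -/
theorem gzf_crd {s : MSys S M E ι} {f : Frm s.Q l La} {c e : ℝ} {he : 0 < e} {E' : ℕ → ℕ}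
    {t : MSys (l.ovr e he) M E' ι} (h : Gzf s l f c e he t) :
    Gzf (scrd σ s) l (frr σ hσ h0 ho f) c e he (scrd σ t) where
  toGz := gz_crd h.toGz σ
  lfr := fun i => lfr_crd (h.lfr i)

end

end Pool.Agent.Helper18.PRM
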