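import Pool.Agent.Helper18.PRM.Mxp
import Pool.Agent.Helper95.VIS.Ma

/-! PERMUTED SYSTEMS: optimal K-forms, minimal carriers. -/

set_option autoImplicit false

namespace Pool.Agent.Helper18.PRM

open Finset Filter Topology Matrix Pool.Agent.Helper69.RK Pool.Agent.Helper31.EC Pool.Agent.Helper31.EC.Sp
open Pool.Agent.Helper40.EL Pool.Agent.Helper89.LX Pool.Agent.Helper3.LF Pool.Agent.Helper84.MT
open Pool.Agent.Helper66.NJ Pool.Agent.Helper95.VIS Pool.Agent.Helper33.LIT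

noncomputable section

variable {S : Sp} {M D : ℕ} {κ : Type} {Q : S.VV M} {A : κ → Part S} {C : LC S}

theorem vcrd_symm (σ : Equiv.Perm (Fin M)) (Q : S.VV M) : vcrd σ.symm (vcrd σ Q) = Q := by
  rw [vcrd_comp]
  have h3 : (σ ∘ σ.symm : Fin M → Fin M) = id := funext fun i => σ.apply_symm_apply i
  rw [h3, vcrd_id]

theorem adfK_prm (σ : Equiv.Perm (Fin M)) {x : ∀ k, FD (S.F k) (Mon M D)} (h : (gaq Q D).AdfK C A x) :
    (gaq (vcrd σ Q) D).AdfK C A (fun k => fprm σ (x k)) := ⟨adf_prm σ h.1, h.2⟩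

/-- OPTIMAL K-FORMS -/
theorem optfK_prm (σ : Equiv.Perm (Fin M)) {x : ∀ k, FD (S.F k) (Mon M D)} (h : (gaq Q D).OptfK C A x) :
    (gaq (vcrd σ Q) D).OptfK C A (fun k => fprm σ (x k)) := by
  refine ⟨adfK_prm σ h.1, fun y hy => ?_⟩
  have h1 := adfK_prm σ.symm hy
  rw [vcrd_symm] at h1
  have h4 := h.2 _ h1
  have e1 : (fun k => (fprm σ.symm (y k)).sc / (S.F k).n) = fun k => (y k).sc / (S.F k).n := by
    funext k
    rw [fprm_sc]
  have e2 : (fun k => (fprm σ (x k)).sc / (S.F k).n) = fun k => (x k).sc / (S.F k).n := by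
    funext k
    rw [fprm_sc]
  rw [e1] at h4
  exact h4.trans (le_of_eq (congrArg ul e2.symm))

theorem prm_inj (σ : Equiv.Perm (Fin M)) {A B : Matrix (Mon M D) (Mon M D) ℝ} (h : prm σ A = prm σ B) : A = B := by
  ext a b
  have h1 := congrFun (congrFun h ((mnE σ).symm a)) ((mnE σ).symm b)
  have h2 : ∀ B : Matrix (Mon M D) (Mon M D) ℝ, prm σ B ((mnE σ).symm a) ((mnE σ).symm b) = B a b := fun B => by
    show B (mnE σ ((mnE σ).symm a)) (mnE σ ((mnE σ).symm b)) = B a b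
    rw [Equiv.apply_symm_apply, Equiv.apply_symm_apply]
  rw [h2, h2] at h1
  exact h1

theorem Kn1_prm (σ : Equiv.Perm (Fin M)) {F : FSp} {W : Setoid F.Ω} {G : F.Ω → Matrix (Mon M D) (Mon M D) ℝ} :
    Kn1 W (fun ω => prm σ (G ω)) ↔ Kn1 W G :=
  ⟨fun h ω ω' a b c d => prm_inj σ (h ω ω' a b c d), fun h ω ω' a b c d => congrArg (prm σ) (h ω ω' a b c d)⟩

theorem gG_prm (σ : Equiv.Perm (Fin M)) {F : FSp} (W : Setoid F.Ω) (G : F.Ω → Matrix (Mon M D) (Mon M D) ℝ) :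
    gG W (fun ω => prm σ (G ω)) = fun ω => prm σ (gG W G ω) := by
  by_cases h : Kn1 W G
  · rw [gG_eq h, gG_eq ((Kn1_prm σ).mpr h)]
  · have e1 : gG W G = fun _ => 1 := if_neg h
    have e2 : gG W (fun ω => prm σ (G ω)) = fun _ => 1 := if_neg fun h1 => h ((Kn1_prm σ).mp h1)
    rw [e1, e2]
    funext ω
    exact (prm_one σ).symm

theorem zFD_prm (σ : Equiv.Perm (Fin M)) {F : FSp} (W : Setoid F.Ω) (G : F.Ω → Matrix (Mon M D) (Mon M D) ℝ) :
    fprm σ (zFD W G) = zFD W (fun ω => prm σ (G ω)) := by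
  have h : ∀ (G₁ G₂ : F.Ω → Matrix (Mon M D) (Mon M D) ℝ) (h1 : Kn1 W G₁) (h2 : Kn1 W G₂), G₁ = G₂ →
      (⟨⟨(FLab.triv F).T, (FLab.triv F).p, (FLab.triv F).hn, W⟩, G₁, G₁, fun ω ω' a b c d =>
        ⟨h1 ω ω' a b c d, h1 ω ω' a b c d⟩⟩ : FD F (Mon M D)) =
      ⟨⟨(FLab.triv F).T, (FLab.triv F).p, (FLab.triv F).hn, W⟩, G₂, G₂, fun ω ω' a b c d =>
        ⟨h2 ω ω' a b c d, h2 ω ω' a b c d⟩⟩ := by
    rintro G₁ G₂ h1 h2 rfl
    rfl
  exact h _ _ ((Kn1_prm σ).mpr (gG_kn W G)) (gG_kn W _) (gG_prm σ W G).symm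

/-- the partition into the roundings -/
theorem fc_rX {ι : Type} [Fintype ι] {F : FSp} {W : Setoid F.Ω} {G : F.Ω → Matrix ι ι ℝ} (a : Kn1 W G) :
    (fc (rX W G) : FL F) = fc (Setoid.ker fun ω => rdm F.n (G ω)) := by
  apply le_antisymm
  · apply fc_le
    intro ω ω' m1 m2 _ e
    have e' : rdm F.n (G ω) = rdm F.n (G ω') := e
    show rv W G ω = rv W G ω'
    rw [rv_supp a m1, rv_supp a m2, e']
  · apply fc_le
    intro ω ω' m1 m2 _ e
    have e' : rv W G ω = rv W G ω' := e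
    rw [rv_supp a m1, rv_supp a m2] at e'
    exact e'

/-- MINIMAL CARRIERS of the permuted system -/
theorem MinC_prm (σ : Equiv.Perm (Fin M)) {R X : ∀ k, Setoid (S.F k).Ω} (h : MinC (gaq Q D) R A X) :
    MinC (gaq (vcrd σ Q) D) R A X := by
  obtain ⟨G, h1, h2, h3⟩ := h.car
  have h4 : ∀ᶠ k in UF, Kn1 (X k) (fun ω => prm σ (G k ω)) := h1.mono fun k hk => (Kn1_prm σ).mpr hk
  have e1 : (fun k => fprm σ (zFD (X k) (G k))) = fun k => zFD (X k) (fun ω => prm σ (G k ω)) :=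
    funext fun k => zFD_prm σ _ _
  have h5 := optfK_prm σ h2
  rw [e1] at h5
  refine ⟨h.lit, fun k ω => prm σ (G k ω), h4, h5, ?_⟩
  have h6 := rX_opt (gaq (vcrd σ Q) D) h4 h.lit h5
  have h7 := optfK_prm σ.symm h6
  rw [vcrd_symm] at h7
  have h8 := h.min (gaq Q D) h7
  refine h8.congr' ?_
  filter_upwards [h4] with k hk
  have e2 := fc_rX hk
  rw [← e2]
  rfl

theorem MinC_prm_iff (σ : Equiv.Perm (Fin M)) {R X : ∀ k, Setoid (S.F k).Ω} :
    MinC (gaq (vcrd σ Q) D) R A X ↔ MinC (gaq Q D) R A X := by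
  refine ⟨fun h => ?_, MinC_prm σ⟩
  have h1 := MinC_prm σ.symm h
  rwa [vcrd_symm] at h1

/-- MINIMAL CARRIERS OF ALL DEGREES -/
theorem MinA_prm (σ : Equiv.Perm (Fin M)) {R X : ∀ k, Setoid (S.F k).Ω} (h : MinA (fun D => gaq Q D) R A X) :
    MinA (fun D => gaq (vcrd σ Q) D) R A X := by
  refine ⟨h.lit, h.dmf, fun a => ?_, fun l hl => h.min l fun a => ?_⟩
  · obtain ⟨G, h1, h2⟩ := h.car a
    refine ⟨fun k ω => prm σ (G k ω), h1.mono fun k hk => (Kn1_prm σ).mpr hk, ?_⟩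
    have e1 : (fun k => fprm σ (zFD (X k) (G k))) = fun k => zFD (X k) (fun ω => prm σ (G k ω)) :=
      funext fun k => zFD_prm σ _ _
    have h5 := optfK_prm σ h2
    rw [e1] at h5
    exact h5
  · obtain ⟨X', h1, h2⟩ := hl a
    exact ⟨X', (MinC_prm_iff σ).mp h1, h2⟩

theorem MinA_prm_iff (σ : Equiv.Perm (Fin M)) {R X : ∀ k, Setoid (S.F k).Ω} :
    MinA (fun D => gaq (vcrd σ Q) D) R A X ↔ MinA (fun D => gaq Q D) R A X := by
  refine ⟨fun h => ?_, MinA_prm σ⟩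
  have h1 := MinA_prm σ.symm h
  rwa [vcrd_symm] at h1

end

end Pool.Agent.Helper18.PRM
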