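import Pool.Agent.Helper18.PRM.Crd
import Pool.Agent.Helper84.MT.Fun

/-! PERMUTATIONS of the coordinates: monomials, forms, gauge, volume. -/

set_option autoImplicit false

namespace Pool.Agent.Helper18.PRM

open Finset Filter Topology Matrix Pool.Agent.Helper69.RK Pool.Agent.Helper31.EC Pool.Agent.Helper31.EC.Sp
open Pool.Agent.Helper40.EL Pool.Agent.Helper89.LX Pool.Agent.Helper3.LF Pool.Agent.Helper84.MT
open Pool.Agent.Helper36.AM
open Pool.Agent.Helper95.LF (PdM)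

noncomputable section

variable {S T : Sp} {M D : ℕ} {E : ℕ → ℕ} {ι κ : Type}

/-- the monomials in the permuted variables -/
def mnE (σ : Equiv.Perm (Fin M)) : Mon M D ≃ Mon M D where
  toFun := fun a => ⟨fun i => a.1 (σ.symm i), by
    have h1 := a.2
    rwa [← Equiv.sum_comp σ.symm (fun i => (a.1 i : ℕ))] at h1⟩
  invFun := fun a => ⟨fun i => a.1 (σ i), by
    have h1 := a.2
    rwa [← Equiv.sum_comp σ (fun i => (a.1 i : ℕ))] at h1⟩
  left_inv := fun a => Subtype.ext (funext fun i => by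
    show a.1 (σ.symm (σ i)) = a.1 i
    rw [Equiv.symm_apply_apply])
  right_inv := fun a => Subtype.ext (funext fun i => by
    show a.1 (σ (σ.symm i)) = a.1 i
    rw [Equiv.apply_symm_apply])

theorem mnE_ex (σ : Equiv.Perm (Fin M)) (a : Mon M D) : (mnE σ a).ex = Finsupp.mapDomain σ a.ex := by
  ext i
  rw [Mon.ex_apply]
  show (a.1 (σ.symm i) : ℕ) = _
  conv_rhs => rw [← Equiv.apply_symm_apply σ i, Finsupp.mapDomain_apply σ.injective]
  rfl

theorem mnE_mon (σ : Equiv.Perm (Fin M)) (a : Mon M D) : (mnE σ a).mon = MvPolynomial.rename σ a.mon := by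
  unfold Mon.mon
  rw [MvPolynomial.rename_monomial, mnE_ex]

theorem vv_prm (σ : Equiv.Perm (Fin M)) (p : Fin M → ℝ) (a : Mon M D) :
    vv (fun i => p (σ i)) a = vv p (mnE σ a) := by
  unfold vv
  rw [mnE_mon, MvPolynomial.eval_rename]
  rfl

theorem dd_prm (σ : Equiv.Perm (Fin M)) (p : Fin M → ℝ) (i : Fin M) (a : Mon M D) :
    dd i (fun i => p (σ i)) a = dd (σ i) p (mnE σ a) := by
  unfold dd
  rw [mnE_mon, MvPolynomial.pderiv_rename σ.injective, MvPolynomial.eval_rename]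
  rfl

/-- the permuted form -/
def prm (σ : Equiv.Perm (Fin M)) (A : Matrix (Mon M D) (Mon M D) ℝ) : Matrix (Mon M D) (Mon M D) ℝ :=
  A.submatrix (mnE σ) (mnE σ)

theorem prm_dv (σ : Equiv.Perm (Fin M)) (A : Matrix (Mon M D) (Mon M D) ℝ) (x y : Mon M D → ℝ) :
    (fun a => x (mnE σ a)) ⬝ᵥ (prm σ A *ᵥ fun a => y (mnE σ a)) = x ⬝ᵥ (A *ᵥ y) := by
  unfold prm
  have h1 : (A.submatrix (mnE σ) (mnE σ) *ᵥ fun a => y (mnE σ a)) = fun a => (A *ᵥ y) (mnE σ a) := by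
    funext a
    show ∑ b, A (mnE σ a) (mnE σ b) * y (mnE σ b) = ∑ b, A (mnE σ a) b * y b
    exact Equiv.sum_comp (mnE σ) (fun b => A (mnE σ a) b * y b)
  rw [h1]
  exact Equiv.sum_comp (mnE σ) (fun b => x b * (A *ᵥ y) b)

theorem prm_qf (σ : Equiv.Perm (Fin M)) (A : Matrix (Mon M D) (Mon M D) ℝ) (x : Mon M D → ℝ) :
    qf (prm σ A) x = qf A (fun a => x ((mnE σ).symm a)) := by
  have h1 := prm_dv σ A (fun a => x ((mnE σ).symm a)) (fun a => x ((mnE σ).symm a))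
  have h2 : (fun a => x ((mnE σ).symm (mnE σ a))) = x := funext fun a => by rw [Equiv.symm_apply_apply]
  rw [h2] at h1
  exact h1

theorem dot_prm (σ : Equiv.Perm (Fin M)) (x : Mon M D → ℝ) :
    (fun a => x ((mnE σ).symm a)) ⬝ᵥ (fun a => x ((mnE σ).symm a)) = x ⬝ᵥ x :=
  Equiv.sum_comp (mnE σ).symm (fun a => x a * x a)

theorem prm_Cpd (σ : Equiv.Perm (Fin M)) {c : ℝ} {A : Matrix (Mon M D) (Mon M D) ℝ} (h : Cpd c A) :
    Cpd c (prm σ A) := by
  refine ⟨?_, fun x => ?_, fun x => ?_⟩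
  · have h1 := h.1
    unfold Matrix.IsSymm at h1 ⊢
    unfold prm
    rw [Matrix.transpose_submatrix, h1]
  · rw [prm_qf, ← dot_prm σ x]
    exact h.2.1 _
  · rw [prm_qf, ← dot_prm σ x]
    exact h.2.2 _

theorem prm_one (σ : Equiv.Perm (Fin M)) : prm σ (1 : Matrix (Mon M D) (Mon M D) ℝ) = 1 := by
  unfold prm
  exact Matrix.submatrix_one_equiv _

theorem prm_det (σ : Equiv.Perm (Fin M)) (A : Matrix (Mon M D) (Mon M D) ℝ) : (prm σ A).det = A.det :=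
  Matrix.det_submatrix_equiv_self _ _

theorem nodp_prm (σ : Equiv.Perm (Fin M)) (D : ℕ) (p : Fin M → ℝ) (r : ℝ) (j : Fin M → Fin (D + 1)) :
    nodp D (fun i => p (σ i)) r (fun i => j (σ i)) = fun i => nodp D p r j (σ i) := rfl

/-- sums over the nodes -/
theorem sum_nod (σ : Equiv.Perm (Fin M)) (D : ℕ) (f : (Fin M → Fin (D + 1)) → ℝ) :
    ∑ j : Fin M → Fin (D + 1), f (fun i => j (σ i)) = ∑ j, f j :=
  Equiv.sum_comp (Equiv.arrowCongr σ.symm (Equiv.refl (Fin (D + 1)))) f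

/-- THE SIZE of the permuted form at the permuted point -/
theorem phi_prm (σ : Equiv.Perm (Fin M)) (r : ℝ) (A : Matrix (Mon M D) (Mon M D) ℝ) (p : Fin M → ℝ) :
    phi r (prm σ A) (fun i => p (σ i)) = phi r A p := by
  unfold phi
  rw [← sum_nod σ D (fun j => vv (nodp D (fun i => p (σ i)) r j) ⬝ᵥ (prm σ A *ᵥ vv (nodp D (fun i => p (σ i)) r j)))]
  refine Finset.sum_congr rfl fun j _ => ?_
  rw [nodp_prm]
  have h1 : (vv (fun i => nodp D p r j (σ i)) : Mon M D → ℝ) = fun a => vv (nodp D p r j) (mnE σ a) :=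
    funext fun a => vv_prm σ _ a
  rw [h1, prm_dv]

theorem Jq_prm (σ : Equiv.Perm (Fin M)) (r : ℝ) (A : Matrix (Mon M D) (Mon M D) ℝ) (p : Fin M → ℝ) :
    Jq r (prm σ A) (fun i => p (σ i)) = (Jq r A p).submatrix σ σ := by
  ext a b
  rw [Jq_apply, Matrix.submatrix_apply, Jq_apply,
    ← sum_nod σ D (fun j => dd a (nodp D (fun i => p (σ i)) r j) ⬝ᵥ (prm σ A *ᵥ dd b (nodp D (fun i => p (σ i)) r j)))]
  refine Finset.sum_congr rfl fun j _ => ?_
  rw [nodp_prm]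
  have h1 : (dd a (fun i => nodp D p r j (σ i)) : Mon M D → ℝ) = fun m => dd (σ a) (nodp D p r j) (mnE σ m) :=
    funext fun m => dd_prm σ _ a m
  have h2 : (dd b (fun i => nodp D p r j (σ i)) : Mon M D → ℝ) = fun m => dd (σ b) (nodp D p r j) (mnE σ m) :=
    funext fun m => dd_prm σ _ b m
  rw [h1, h2, prm_dv]

/-- THE VOLUME of the permuted form at the permuted point -/
theorem GQ_prm (σ : Equiv.Perm (Fin M)) (r : ℝ) (A : Matrix (Mon M D) (Mon M D) ℝ) (p : Fin M → ℝ) :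
    GQ r (prm σ A) (fun i => p (σ i)) = GQ r A p := by
  unfold GQ
  rw [Jq_prm]
  have h1 : (1 : Matrix (Fin M) (Fin M) ℝ) + (Jq r A p).submatrix σ σ = (1 + Jq r A p).submatrix σ σ := by
    rw [Matrix.submatrix_add, Pi.add_apply, Pi.add_apply, Matrix.submatrix_one_equiv]
  rw [h1]
  exact Matrix.det_submatrix_equiv_self σ _

/-! ### labels with forms -/

/-- the label with the permuted form -/
def fprm (σ : Equiv.Perm (Fin M)) {F : FSp} (x : FD F (Mon M D)) : FD F (Mon M D) where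
  l := x.l
  g := fun ω => prm σ (x.g ω)
  g' := fun ω => prm σ (x.g' ω)
  meas := fun ω ω' a b c d => by
    obtain ⟨h1, h2⟩ := x.meas ω ω' a b c d
    rw [h1, h2]
    exact ⟨rfl, rfl⟩

theorem fprm_sc (σ : Equiv.Perm (Fin M)) {F : FSp} (x : FD F (Mon M D)) : (fprm σ x).sc = x.sc := by
  unfold FD.sc
  refine Finset.sum_congr rfl fun ω _ => ?_
  show x.l.T.μ ω * Real.logb 2 (prm σ (x.g ω)).det = _
  rw [prm_det]

variable {Q : S.VV M} {A : κ → Part S} {x : ∀ k, FD (S.F k) (Mon M D)}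

theorem gaq_C (Q : S.VV M) : (gaq Q D).C = 2 * D + 1 := rfl

theorem gaq_cp (Q Q' : S.VV M) (k : ℕ) : (gaq Q D).cp k = (gaq Q' D).cp k := by
  unfold Gau.cp
  rw [gaq_C, gaq_C]

theorem gaq_phi (Q : S.VV M) (k : ℕ) (ω : (S.F k).Ω) (B : Matrix (Mon M D) (Mon M D) ℝ) :
    (gaq Q D).φ k ω B = phi (S.dl 1 k) B (Q.v k ω) := rfl

theorem vcrd_fun (σ : Fin M → Fin M) (Q : S.VV M) (k : ℕ) (ω : (S.F k).Ω) :
    (vcrd σ Q).v k ω = fun i => Q.v k ω (σ i) := rfl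

theorem gaq_phi_prm (σ : Equiv.Perm (Fin M)) (Q : S.VV M) (k : ℕ) (ω : (S.F k).Ω) (B : Matrix (Mon M D) (Mon M D) ℝ) :
    (gaq (vcrd σ Q) D).φ k ω (prm σ B) = (gaq Q D).φ k ω B := by
  rw [gaq_phi, gaq_phi, vcrd_fun, phi_prm]

/-- ADMISSIBLE FORMS -/
theorem adf_prm (σ : Equiv.Perm (Fin M)) (h : (gaq Q D).Adf A x) : (gaq (vcrd σ Q) D).Adf A (fun k => fprm σ (x k)) := by
  intro η hη
  filter_upwards [h η hη] with k hk
  obtain ⟨h1, h2, h3, h4⟩ := hk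
  refine ⟨h1, fun ω hω => ?_, ?_, ?_⟩
  · rw [gaq_cp (vcrd σ Q) Q]
    exact ⟨prm_Cpd σ (h2 ω hω).1, prm_Cpd σ (h2 ω hω).2⟩
  · refine le_trans (FSp.pb_mono _ ?_) h3
    intro ω _ h5 h6
    exact h5 ((gaq_phi_prm σ Q k ((x k).l.p.π ω) ((x k).g ω)).trans_le h6)
  · refine le_trans (FSp.pb_mono _ ?_) h4
    intro ω _ h5 h6
    exact h5 ((gaq_phi_prm σ Q k ((x k).l.p.π ω) ((x k).g' ω)).trans_le h6)

/-- THE VOLUME of the permuted form -/
theorem vol_prm (σ : Equiv.Perm (Fin M)) (Q : S.VV M) (x : ∀ k, FD (S.F k) (Mon M D)) :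
    vol (vcrd σ Q) D (fun k => fprm σ (x k)) = vol Q D x := by
  unfold Pool.Agent.Helper84.MT.vol
  have h1 : (fun k => ∑ ω, (fprm σ (x k)).l.T.μ ω * (Real.logb 2 (GQ (S.dl 1 k) ((fprm σ (x k)).g ω)
      ((vcrd σ Q).v k ((fprm σ (x k)).l.p.π ω))) / (2 * (S.F k).n))) =
      fun k => ∑ ω, (x k).l.T.μ ω * (Real.logb 2 (GQ (S.dl 1 k) ((x k).g ω)
      (Q.v k ((x k).l.p.π ω))) / (2 * (S.F k).n)) := by
    funext k
    refine Finset.sum_congr rfl fun ω _ => ?_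
    have h2 := GQ_prm σ (S.dl 1 k) ((x k).g ω) (Q.v k ((x k).l.p.π ω))
    show (x k).l.T.μ ω * (Real.logb 2 (GQ (S.dl 1 k) (prm σ ((x k).g ω))
      (fun i => Q.v k ((x k).l.p.π ω) (σ i))) / (2 * (S.F k).n)) = _
    rw [h2]
  exact congrArg (fun z => (M : ℝ) - ul z) h1

end

end Pool.Agent.Helper18.PRM
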