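import Pool.Agent.Helper18.PRM.Cls
import Pool.Agent.Helper29.MX.Bas

/-! PERMUTED SYSTEMS and K-labels: the objects of `Helper29/MX/St`. -/

set_option autoImplicit false

namespace Pool.Agent.Helper18.PRM

open Finset Filter Topology Matrix Pool.Agent.Helper69.RK Pool.Agent.Helper31.EC Pool.Agent.Helper31.EC.Sp
open Pool.Agent.Helper40.EL Pool.Agent.Helper89.LX Pool.Agent.Helper3.LF Pool.Agent.Helper84.MT
open Pool.Agent.Helper36.AM Pool.Agent.Helper29.MX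
open Pool.Agent.Helper49.MD
open Pool.Agent.Helper87.NSL (cndR KnS Inv1)
open Pool.Agent.Helper89.RAK (rnd)

noncomputable section

variable {S T : Sp} {M m D : ℕ} {E : ℕ → ℕ} {ι κ : Type}

/-- the conditions of the K-labels are the same (any coordinates) -/
theorem cndR_crd (σ : Fin m → Fin M) (s : MSys S M E ι) (R : Rsl S) (c : ℝ) : cndR (scrd σ s) R c = cndR s R c := by
  funext i
  rcases i with _ | i <;> rfl

theorem KLb_crd (σ : Fin m → Fin M) (s : MSys S M E ι) (R : Rsl S) (c : ℝ) (l : Lab S) :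
    KLb (scrd σ s) R c l ↔ KLb s R c l := by
  unfold KLb
  rw [cndR_crd]

theorem vis_prm (σ : Equiv.Perm (Fin M)) (Q : S.VV M) : vis (vcrd σ Q) = vis Q := funext fun k => ker_prm σ Q 1 k

theorem Pt_crd (σ : Fin m → Fin M) {s : MSys S M E ι} {R : Rsl S} (h : Pt s R) : Pt (scrd σ s) R := by
  unfold Pt KnS at h ⊢
  filter_upwards [h] with k hk ω ω' h1 h2 h3 h4
  funext i
  exact congrFun (hk ω ω' h1 h2 h3 h4) (σ i)

theorem Lt_prm (σ : Equiv.Perm (Fin M)) {s : MSys S M E ι} (h : Lt s) : Lt (scrd σ s) := by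
  unfold Lt at h ⊢
  have h1 : vis (scrd σ s).Q = vis s.Q := vis_prm σ s.Q
  rw [h1]
  exact Pt_crd σ h

theorem rnd_crd (σ : Fin m → Fin M) (Q : S.VV M) : rnd (vcrd σ Q) = vcrd σ (rnd Q) := rfl

theorem rd_crd (σ : Fin m → Fin M) (s : MSys S M E ι) : rd (scrd σ s) = scrd σ (rd s) := rfl

/-- ADMISSIBLE AND OPTIMAL FORMS over K-labels -/
theorem KAd_prm (σ : Equiv.Perm (Fin M)) {s : MSys S M E ι} {R : Rsl S} {c : ℝ} {x : ∀ k, FD (S.F k) (Mon M D)}
    (h : KAd s R D c x) : KAd (scrd σ s) R D c (fun k => fprm σ (x k)) := by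
  unfold KAd at h ⊢
  rw [cndR_crd]
  exact ⟨adf_prm σ h.1, h.2⟩

theorem volK_prm_le (σ : Equiv.Perm (Fin M)) (s : MSys S M E ι) (R : Rsl S) (D : ℕ) (c : ℝ) (v : ℝ)
    (h : ∃ x : ∀ k, FD (S.F k) (Mon M D), KAd s R D c x ∧ v = vol s.Q D x) :
    ∃ x : ∀ k, FD (S.F k) (Mon M D), KAd (scrd σ s) R D c x ∧ v = vol (scrd σ s).Q D x := by
  obtain ⟨x, hx, h2⟩ := h
  refine ⟨fun k => fprm σ (x k), KAd_prm σ hx, ?_⟩
  rw [h2]
  exact (vol_prm σ s.Q x).symm

theorem volK_prm (σ : Equiv.Perm (Fin M)) (s : MSys S M E ι) (R : Rsl S) (D : ℕ) (c : ℝ) :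
    volK (scrd σ s) R D c = volK s R D c := by
  unfold volK
  refine congrArg sInf (Set.ext fun v => ⟨fun h => ?_, fun h => volK_prm_le σ s R D c v h⟩)
  have h1 := volK_prm_le σ.symm (scrd σ s) R D c v h
  rw [scrd_symm] at h1
  exact h1

theorem volKO_prm (σ : Equiv.Perm (Fin M)) (s : MSys S M E ι) (R : Rsl S) (c : ℝ) :
    volKO (scrd σ s) R c = volKO s R c := by
  unfold volKO
  exact iInf_congr fun D => volK_prm σ s R D c

theorem HK_prm (σ : Equiv.Perm (Fin M)) (s : MSys S M E ι) (R : Rsl S) (c : ℝ) : HK (scrd σ s) R c = HK s R c := by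
  unfold HK
  congr 1
  ext v
  constructor
  · rintro ⟨l, hl, rfl⟩
    exact ⟨l, (KLb_crd σ s R c l).mp hl, by rw [up1_prm]⟩
  · rintro ⟨l, hl, rfl⟩
    exact ⟨l, (KLb_crd σ s R c l).mpr hl, by rw [up1_prm]⟩

theorem Stb_prm (σ : Equiv.Perm (Fin M)) {ε : ℝ} {s : MSys S M E ι} {R : Rsl S} (h : Stb ε s R) :
    Stb ε (scrd σ s) R := fun T p A hA => by
  have h1 := h T p A hA
  have h2 := volKO_prm (S := Sp.im p A) σ (s.im p A hA) R 0
  exact h1.trans (le_of_eq h2.symm)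

theorem Dfc_prm (σ : Equiv.Perm (Fin M)) {b : ℝ} {s : MSys S M E ι} (h : Dfc b s) : Dfc b (scrd σ s) :=
  fun T p A hA => by
    have h1 : (scrd σ (s.im p A hA)).Q.dg b = (s.im p A hA).Q.dg b := dg_prm σ _ b
    show H ((scrd σ (s.im p A hA)).Q.dg b) < _
    rw [h1]
    exact h T p A hA

theorem Ud_prm (σ : Equiv.Perm (Fin M)) {v : ℕ} {s : MSys S M E ι} {j : ι} (h : Ud v s j) : Ud v (scrd σ s) j :=
  fun T p A hA c c' h0 h1 h2 => by
    have h3 := h T p A hA c c' h0 h1 h2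
    have h4 : ∀ k, Setoid.ker ((scrd σ (s.im p A hA)).Q.cellv c' k) = Setoid.ker ((s.im p A hA).Q.cellv c' k) :=
      fun k => ker_prm σ _ c' k
    refine h3.trans (le_of_eq ?_)
    congr 1
    funext k
    exact congrArg (fun z => Helper31.EC.h (fc (F := (Sp.im p A).F k) z) (((s.im p A hA).lf j).win c k) / ((Sp.im p A).F k).n)
      (h4 k).symm

theorem Inv_prm (σ : Equiv.Perm (Fin M)) {v : ℕ} {s : MSys S M E ι} (h : Helper29.MX.Inv v s) :
    Helper29.MX.Inv v (scrd σ s) := ⟨h.1, fun i => Ud_prm σ (h.2 i)⟩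

/-! ### the objects of version 2 -/

theorem TLb_crd (σ : Fin m → Fin M) (s : MSys S M E ι) (c : ℝ) (l : Lab S) : TLb (scrd σ s) c l ↔ TLb s c l := Iff.rfl

theorem Trp_crd (σ : Fin m → Fin M) (s : MSys S M E ι) (R : Rsl S) : Trp (scrd σ s) R ↔ Trp s R := Iff.rfl

theorem Nrq_crd (σ : Fin m → Fin M) {s s' : MSys S M E ι} (h : Nrq s s') : Nrq (scrd σ s) (scrd σ s') := by
  obtain ⟨h1, K, hK, h2⟩ := h
  refine ⟨fun i => ?_, K, hK, ?_⟩
  · filter_upwards [h1 i] with k hk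
    show (⟨(s'.lf i).e, (s'.lf i).La k, (s'.lf i).Y.v k, fun ω y j => (s'.lf i).F k ω y (σ j), (s'.lf i).al k⟩ :
      Helper49.MD.FLf (S.F k).Ω m) = ⟨(s.lf i).e, (s.lf i).La k, (s.lf i).Y.v k,
        fun ω y j => (s.lf i).F k ω y (σ j), (s.lf i).al k⟩
    have e : (lob (s'.lf i) k : Helper49.MD.FLf (S.F k).Ω M) = lob (s.lf i) k := hk
    exact congrArg (fun x : Helper49.MD.FLf (S.F k).Ω M => (⟨x.e, x.La, x.Y, fun ω y j => x.F ω y (σ j), x.al⟩ :
      Helper49.MD.FLf (S.F k).Ω m)) e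
  · filter_upwards [h2] with k hk ω hω j
    exact hk ω hω (σ j)

end

end Pool.Agent.Helper18.PRM
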