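import Pool.Agent.Helper18.PRM.Cls
import Pool.Agent.Helper36.AM.DK
import Pool.Agent.Helper75.CC.Def

/-! PERMUTED SYSTEMS in the classes `(D_k)`, `CC k`, `CL k`. -/

set_option autoImplicit false

namespace Pool.Agent.Helper18.PRM

open Finset Filter Topology Matrix Pool.Agent.Helper69.RK Pool.Agent.Helper31.EC Pool.Agent.Helper31.EC.Sp
open Pool.Agent.Helper40.EL Pool.Agent.Helper89.LX Pool.Agent.Helper3.LF Pool.Agent.Helper84.MT
open Pool.Agent.Helper36.AM Pool.Agent.Helper75.CC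

noncomputable section

variable {S T : Sp} {M m D : ℕ} {E : ℕ → ℕ} {ι κ : Type}

/-! ### the classes `(D_k)` -/

theorem udp_prm (σ : Equiv.Perm (Fin M)) {k : ℕ} {G : Matrix (Fin M) (Fin M) ℝ} {B : ℝ} (h : UDp k (G.submatrix σ σ) B) :
    UDp k G B := by
  obtain ⟨v, h1, h2⟩ := h
  refine ⟨fun i a => v i (σ.symm a), fun i j => ?_, fun i => ?_⟩
  · rw [← h1 i j]
    exact Equiv.sum_comp σ.symm (fun a => v i a * v j a)
  · refine le_trans (le_of_eq ?_) (h2 i)
    have h3 : (G.submatrix σ σ *ᵥ v i) = fun a => (G *ᵥ fun a => v i (σ.symm a)) (σ a) := by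
      funext a
      show ∑ b, G (σ a) (σ b) * v i b = ∑ b, G (σ a) b * v i (σ.symm b)
      rw [← Equiv.sum_comp σ (fun b => G (σ a) b * v i (σ.symm b))]
      exact Finset.sum_congr rfl fun b _ => by rw [Equiv.symm_apply_apply]
    rw [h3]
    show ∑ a, v i (σ.symm a) * (G *ᵥ fun a => v i (σ.symm a)) a = ∑ a, v i a * (G *ᵥ fun a => v i (σ.symm a)) (σ a)
    rw [← Equiv.sum_comp σ (fun a => v i (σ.symm a) * (G *ᵥ fun a => v i (σ.symm a)) a)]
    exact Finset.sum_congr rfl fun a _ => by rw [Equiv.symm_apply_apply]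

theorem udf_prm (σ : Equiv.Perm (Fin M)) {Q : S.VV M} {k : ℕ} {c : ℝ} {x : ∀ n, FD (S.F n) (Mon M D)}
    (h : UDf (vcrd σ Q) k c (fun n => fprm σ (x n))) : UDf Q k c x := by
  intro e he
  refine Typ.mono (S := (lb x).sp) (h e he) (Eventually.of_forall fun n ω _ h1 => ?_)
  have h2 : UDp k (Jq (S.dl 1 n) (prm σ ((x n).g ω)) (fun i => Q.v n ((x n).l.p.π ω) (σ i)))
    (2 ^ (2 * (c + e) * (S.F n).n)) := h1
  rw [Jq_prm] at h2
  exact udp_prm σ h2

theorem dk_crd (σ : Equiv.Perm (Fin M)) {k g r : ℕ} {s : MSys S M (lin g) (Fin r)} (h : DK M k S g r s) :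
    DK M k S g r (scrd σ s) := by
  intro D c h0 h1 x hx
  have h2 := IsCan_prm σ.symm hx
  rw [scrd_symm] at h2
  have h3 := h D c h0 h1 _ h2
  have h4 : vcrd σ.symm (scrd σ s).Q = s.Q := congrArg MSys.Q (scrd_symm σ s)
  rw [← h4] at h3
  exact udf_prm σ.symm h3

/-! ### the classes `CL k` and `CC k` -/

theorem sl_crd (σ : Fin m → Fin M) {s : MSys S M E ι} {i : ι} {t : Fin m} {L : ∀ n, Setoid (S.F n).Ω}
    (h : SL s i (σ t) L) : SL (scrd σ s) i t L := ⟨h.win, h.real⟩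

/-- the data of `CC k` of the permuted system -/
def dt_crd (σ : Equiv.Perm (Fin M)) {k : ℕ} {t : Fin M} {w : Fin M → ℝ} {W : ℝ} {s : MSys S M E ι}
    (d : Dt k (σ t) w W s) : Dt k t (fun j => w (σ j)) W (scrd σ s) where
  i := d.i
  L := d.L
  W0 := d.W0
  a := d.a
  Φ := fun n ω => cpo σ σ.injective (d.Φ n ω)
  sl := sl_crd σ d.sl
  fa := d.fa
  ba := d.ba
  nW := d.nW
  fΦ := by
    filter_upwards [d.fΦ] with n hn ω ω' h1 h2 h3 h4
    rw [hn ω ω' h1 h2 h3 h4]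
  wd := by
    filter_upwards [d.wd] with n hn ω hω m hm
    rw [← sum_mapDomain σ σ.injective w m]
    apply hn ω hω
    rw [MvPolynomial.mem_support_iff, ← coeff_cpo σ σ.injective (fun i _ => σ.surjective i)]
    exact MvPolynomial.mem_support_iff.mp hm
  bΦ := by
    obtain ⟨K, hK, h⟩ := d.bΦ
    refine ⟨K, hK, ?_⟩
    filter_upwards [h] with n hn ω hω m
    rw [coeff_cpo σ σ.injective (fun i _ => σ.surjective i)]
    exact hn ω hω _
  nd := by
    obtain ⟨K, hK, h⟩ := d.nd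
    refine ⟨K, hK, h.mono (Eventually.of_forall fun n ω _ hω => ?_)⟩
    obtain ⟨m, j, h1, h2, h3⟩ := hω
    refine ⟨Finsupp.mapDomain σ.symm m, σ.symm j, fun hc => h1 ?_, ?_, ?_⟩
    · rw [← hc, Equiv.apply_symm_apply]
    · rw [Finsupp.mapDomain_apply σ.symm.injective]
      exact h2
    · rw [coeff_cpo σ σ.injective (fun i _ => σ.surjective i), ← Finsupp.mapDomain_comp]
      have h4 : (σ ∘ σ.symm : Fin M → Fin M) = id := funext fun i => σ.apply_symm_apply i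
      rw [h4, Finsupp.mapDomain_id]
      exact h3
  eq := by
    obtain ⟨K, hK, h⟩ := d.eq
    refine ⟨K, hK, h.mono (Eventually.of_forall fun n ω _ hω => ?_)⟩
    have h1 := eval_cpo σ σ.injective (p := d.Φ n ω) (fun i _ => σ.surjective i) (s.Q.v n ω)
    rw [← h1] at hω
    exact hω

theorem cc_crd (σ : Equiv.Perm (Fin M)) (hσ : ∀ j : Fin M, (j : ℕ) = 0 → σ j = j) {k g r : ℕ}
    {s : MSys S M (lin g) (Fin r)} (h : CC M k S g r s) : CC M k S g r (scrd σ s) := by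
  obtain ⟨t, W, ht, ⟨d⟩⟩ := h
  refine ⟨t, W, ht, ⟨?_⟩⟩
  have h1 : σ t = t := hσ t ht
  exact dt_crd (w := fun _ => 1) σ (h1.symm ▸ d)

end

end Pool.Agent.Helper18.PRM
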