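import Pool.Agent.Helper18.PRM.Mon
import Pool.Agent.Helper18.PRM.Frr

/-! PERMUTED SYSTEMS: the conditions, the labels, the volume, the entropies are the same. -/

set_option autoImplicit false

namespace Pool.Agent.Helper18.PRM

open Finset Filter Topology Matrix Pool.Agent.Helper69.RK Pool.Agent.Helper31.EC Pool.Agent.Helper31.EC.Sp
open Pool.Agent.Helper40.EL Pool.Agent.Helper89.LX Pool.Agent.Helper3.LF Pool.Agent.Helper84.MT
open Pool.Agent.Helper36.AM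

noncomputable section

variable {S T : Sp} {M m D : ℕ} {E : ℕ → ℕ} {ι κ : Type}

/-! ### projections -/

theorem vcrd_dg_le (σ : Fin m → Fin M) (Q : S.VV M) (r : ℝ) : (vcrd σ Q).dg r ≤ Q.dg r := by
  apply VV.dg_le_dg _ _ _ _ (fun _ _ => True) Typ_true (fun _ => 1) (S.Sub_const zero_le_one)
  refine Eventually.of_forall fun k ω ω' _ _ _ _ _ g i => ?_
  rw [one_mul]
  exact g (σ i)

theorem vcrd_PLe (σ : Fin m → Fin M) (Q : S.VV M) : PLe (pcd (vcrd σ Q)) (pcd Q) :=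
  (pcd_rp _).2.trans ((rp_mono (vcrd_dg_le σ Q 1)).trans (pcd_rp _).1)

theorem cnd_crd (σ : Fin m → Fin M) (s : MSys S M E ι) (c : ℝ) (i : Option ι) :
    PLe ((scrd σ s).cnd c i) (s.cnd c i) := by
  rcases i with _ | i
  · exact vcrd_PLe σ s.Q
  · exact PLe.refl _

/-- labels of the coordinates are labels of the system -/
theorem DMc_of_crd {σ : Fin m → Fin M} {s : MSys S M E ι} {c : ℝ} {l : Lab S} (h : (scrd σ s).DMc c l) : s.DMc c l :=
  Lab.DMf.mono h fun i => ⟨i, cnd_crd σ s c i⟩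

/-! ### permutations -/

theorem ker_prm (σ : Equiv.Perm (Fin M)) (Q : S.VV M) (r : ℝ) (k : ℕ) :
    Setoid.ker ((vcrd σ Q).cellv r k) = Setoid.ker (Q.cellv r k) := by
  ext ω ω'
  show (vcrd σ Q).cellv r k ω = (vcrd σ Q).cellv r k ω' ↔ Q.cellv r k ω = Q.cellv r k ω'
  constructor
  · intro h
    funext i
    have h1 := congrFun h (σ.symm i)
    rw [vcrd_cellv, vcrd_cellv, Equiv.apply_symm_apply] at h1
    exact h1
  · intro h
    funext i
    rw [vcrd_cellv, vcrd_cellv, h]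

theorem pcd_prm (σ : Equiv.Perm (Fin M)) (Q : S.VV M) : pcd (vcrd σ Q) = pcd Q := by
  funext k
  show fc _ = fc _
  rw [ker_prm]

theorem dg_prm (σ : Equiv.Perm (Fin M)) (Q : S.VV M) (r : ℝ) : (vcrd σ Q).dg r = Q.dg r := by
  refine le_antisymm (vcrd_dg_le σ Q r) ?_
  have h1 := vcrd_dg_le σ.symm (vcrd σ Q) r
  have h2 : vcrd σ.symm (vcrd σ Q) = Q := by
    rw [vcrd_comp]
    have h3 : (σ ∘ σ.symm : Fin M → Fin M) = id := funext fun i => σ.apply_symm_apply i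
    rw [h3, vcrd_id]
  rwa [h2] at h1

theorem scrd_symm (σ : Equiv.Perm (Fin M)) (s : MSys S M E ι) : scrd σ.symm (scrd σ s) = s := by
  rw [scrd_comp]
  have h3 : (σ ∘ σ.symm : Fin M → Fin M) = id := funext fun i => σ.apply_symm_apply i
  rw [h3, scrd_id]

theorem scrd_symm' (σ : Equiv.Perm (Fin M)) (s : MSys S M E ι) : scrd σ (scrd σ.symm s) = s := by
  rw [scrd_comp]
  have h3 : (σ.symm ∘ σ : Fin M → Fin M) = id := funext fun i => σ.symm_apply_apply i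
  rw [h3, scrd_id]

/-- THE CONDITIONS are the same -/
theorem cnd_prm (σ : Equiv.Perm (Fin M)) (s : MSys S M E ι) (c : ℝ) : (scrd σ s).cnd c = s.cnd c := by
  funext i
  rcases i with _ | i
  · exact pcd_prm σ s.Q
  · rfl

theorem DMc_prm (σ : Equiv.Perm (Fin M)) (s : MSys S M E ι) (c : ℝ) (l : Lab S) :
    (scrd σ s).DMc c l ↔ s.DMc c l := by
  unfold MSys.DMc
  rw [cnd_prm]

theorem IsKap_prm (σ : Equiv.Perm (Fin M)) (s : MSys S M E ι) (c : ℝ) (l : Lab S) :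
    (scrd σ s).IsKap c l ↔ s.IsKap c l := by
  unfold MSys.IsKap
  rw [cnd_prm]

theorem Con_prm (σ : Equiv.Perm (Fin M)) (s : MSys S M E ι) (c : ℝ) : (scrd σ s).Con c ↔ s.Con c := by
  unfold MSys.Con
  rw [cnd_prm]

/-- the entropy of the point over a label -/
theorem up1_prm (σ : Equiv.Perm (Fin M)) (s : MSys S M E ι) (l : Lab S) (r : ℝ) :
    up1 l ((scrd σ s).Q.dg r) = up1 l (s.Q.dg r) := by
  have h1 : (scrd σ s).Q.dg r = s.Q.dg r := dg_prm σ s.Q r
  rw [h1]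

theorem kap_prm [Countable ι] (σ : Equiv.Perm (Fin M)) (s : MSys S M E ι) (c : ℝ) : (scrd σ s).kap c = s.kap c := by
  have h1 : ∀ (p q : Lab S → Prop) (hp : ∃ l, p l) (hq : ∃ l, q l), p = q → hp.choose = hq.choose := by
    intro p q hp hq h
    subst h
    rfl
  exact h1 _ _ ((scrd σ s).exists_kap c) (s.exists_kap c) (funext fun l => propext (IsKap_prm σ s c l))

theorem HQ_prm [Countable ι] (σ : Equiv.Perm (Fin M)) (s : MSys S M E ι) (c : ℝ) : HQ (scrd σ s) c = HQ s c := by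
  unfold HQ
  rw [kap_prm, up1_prm]

theorem vol_prm_le [Finite ι] (σ : Equiv.Perm (Fin M)) (s : MSys S M E ι) (D : ℕ) (c : ℝ) :
    (scrd σ s).vol D c ≤ s.vol D c := by
  obtain ⟨x, hx⟩ := s.exists_can D c
  rw [← s.vol_eq hx.1, ← vol_prm σ s.Q x]
  refine MSys.vol_le_of (scrd σ s) ?_
  rw [cnd_prm]
  exact adf_prm σ hx.1.1

/-- THE VOLUME is the same -/
theorem sys_vol_prm [Finite ι] (σ : Equiv.Perm (Fin M)) (s : MSys S M E ι) (D : ℕ) (c : ℝ) :
    (scrd σ s).vol D c = s.vol D c := by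
  refine le_antisymm (vol_prm_le σ s D c) ?_
  have h1 := vol_prm_le σ.symm (scrd σ s) D c
  rwa [scrd_symm] at h1

theorem volO_prm [Finite ι] (σ : Equiv.Perm (Fin M)) (s : MSys S M E ι) (c : ℝ) : volO (scrd σ s) c = volO s c := by
  unfold volO
  exact iInf_congr fun D => sys_vol_prm σ s D c

/-- OPTIMAL FORMS -/
theorem optf_prm (σ : Equiv.Perm (Fin M)) {Q : S.VV M} {A : κ → Part S} {x : ∀ k, FD (S.F k) (Mon M D)}
    (h : (gaq Q D).Optf A x) : (gaq (vcrd σ Q) D).Optf A (fun k => fprm σ (x k)) := by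
  refine ⟨adf_prm σ h.1, fun y hy => ?_⟩
  have h1 := adf_prm σ.symm hy
  have h2 : vcrd σ.symm (vcrd σ Q) = Q := by
    rw [vcrd_comp]
    have h3 : (σ ∘ σ.symm : Fin M → Fin M) = id := funext fun i => σ.apply_symm_apply i
    rw [h3, vcrd_id]
  rw [h2] at h1
  have h4 := h.2 _ h1
  have e1 : (fun k => (fprm σ.symm (y k)).sc / (S.F k).n) = fun k => (y k).sc / (S.F k).n := by
    funext k
    rw [fprm_sc]
  have e2 : (fun k => (fprm σ (x k)).sc / (S.F k).n) = fun k => (x k).sc / (S.F k).n := by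
    funext k
    rw [fprm_sc]
  rw [e1] at h4
  exact h4.trans (le_of_eq (congrArg ul e2.symm))

/-- CANONICAL FORMS -/
theorem IsCan_prm (σ : Equiv.Perm (Fin M)) {s : MSys S M E ι} {c : ℝ} {x : ∀ k, FD (S.F k) (Mon M D)}
    (h : s.IsCan D c x) : (scrd σ s).IsCan D c (fun k => fprm σ (x k)) := by
  refine ⟨?_, (IsKap_prm σ s c _).mpr h.2⟩
  rw [cnd_prm]
  exact optf_prm σ h.1

/-- the cells of two levels -/
theorem cel2_prm (σ : Equiv.Perm (Fin M)) (Q : S.VV M) (z : Fin M) (a b : ℝ) :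
    cel2 (vcrd σ Q) z a b = cel2 Q (σ z) a b := by
  funext k
  unfold cel2
  rw [ker_prm]
  congr 2
  ext ω ω'
  show (fun j : {j : Fin M // j ≠ z} => (vcrd σ Q).cellv a k ω j.1) = (fun j => (vcrd σ Q).cellv a k ω' j.1) ↔
    (fun j : {j : Fin M // j ≠ σ z} => Q.cellv a k ω j.1) = (fun j => Q.cellv a k ω' j.1)
  constructor
  · intro h
    funext j
    have h1 := congrFun h ⟨σ.symm j.1, fun hc => j.2 ((Equiv.apply_symm_apply σ j.1).symm.trans (congrArg σ hc))⟩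
    beta_reduce at h1
    rw [vcrd_cellv, vcrd_cellv, Equiv.apply_symm_apply] at h1
    exact h1
  · intro h
    funext j
    have h1 := congrFun h ⟨σ j.1, fun hc => j.2 (σ.injective hc)⟩
    beta_reduce at h1
    rw [vcrd_cellv, vcrd_cellv]
    exact h1

/-- WEIGHTED DEGREES along the types -/
theorem wd_crd {g r : ℕ} {w : Fin M → ℝ} (σ : Fin m → Fin M) {s : MSys S M (lin g) (Fin r)}
    (h : ∀ i, ∃ G : ∀ k, (S.F k).Ω → Fin M → MvPolynomial (Fin (s.lf i).e) ℝ,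
      (∀ᶠ k in UF, ∀ ω, (S.F k).μ ω ≠ 0 → ∀ y j, (s.lf i).F k ω y j = MvPolynomial.eval y (G k ω j)) ∧
        ∀ k ω j, ((G k ω j).totalDegree : ℝ) ≤ w j) :
    ∀ i, ∃ G : ∀ k, (S.F k).Ω → Fin m → MvPolynomial (Fin ((scrd σ s).lf i).e) ℝ,
      (∀ᶠ k in UF, ∀ ω, (S.F k).μ ω ≠ 0 → ∀ y j, ((scrd σ s).lf i).F k ω y j = MvPolynomial.eval y (G k ω j)) ∧
        ∀ k ω j, ((G k ω j).totalDegree : ℝ) ≤ w (σ j) := by
  intro i
  obtain ⟨G, h1, h2⟩ := h i
  exact ⟨fun k ω j => G k ω (σ j), h1.mono fun k hk ω hω y j => hk ω hω y (σ j), fun k ω j => h2 k ω (σ j)⟩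

end

end Pool.Agent.Helper18.PRM
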